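import Mathlib

/-!
Real inequalities for the dense case with density at least two fifths.
-/

set_option autoImplicit false

namespace Pool.Agent.MP_344f7e_co.H51

/-- Cubic Taylor upper bound for the logarithm. -/
lemma log_le_cubic {t : ℝ} (ht : 0 < t) :
    Real.log t ≤ (t - 1) - (t - 1) ^ 2 / 2 + (t - 1) ^ 3 / 3 := by
  let f : ℝ → ℝ := fun s => (s - 1) - (s - 1) ^ 2 / 2 + (s - 1) ^ 3 / 3 - Real.log s
  have hd : ∀ s : ℝ, 0 < s → HasDerivAt f ((s - 1) ^ 3 / s) s := by
    intro s hs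
    have h1 : HasDerivAt (fun s : ℝ => s - 1) 1 s := (hasDerivAt_id s).sub_const 1
    have h2 := ((h1.sub ((h1.pow 2).div_const 2)).add ((h1.pow 3).div_const 3)).sub
      (Real.hasDerivAt_log hs.ne')
    refine h2.congr_deriv ?_
    field_simp
    norm_num
    ring
  have f1 : f 1 = 0 := by simp [f]
  have key : 0 ≤ f t := by
    rcases le_total 1 t with h | h
    · have m : MonotoneOn f (Set.Ici 1) := by
        apply monotoneOn_of_deriv_nonneg (convex_Ici 1)
        · intro s hs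
          have : (0 : ℝ) < s := lt_of_lt_of_le one_pos hs
          exact (hd s this).continuousAt.continuousWithinAt
        · intro s hs
          rw [interior_Ici] at hs
          have : (0 : ℝ) < s := lt_trans one_pos hs
          exact (hd s this).differentiableAt.differentiableWithinAt
        · intro s hs
          rw [interior_Ici] at hs
          have h0 : (0 : ℝ) < s := lt_trans one_pos hs
          have h1 : (0 : ℝ) ≤ s - 1 := by
            have : (1 : ℝ) < s := hs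
            linarith
          rw [(hd s h0).deriv]
          positivity
      have := m (Set.mem_Ici.mpr le_rfl) (Set.mem_Ici.mpr h) h
      linarith
    · have m : AntitoneOn f (Set.Icc t 1) := by
        apply antitoneOn_of_deriv_nonpos (convex_Icc t 1)
        · intro s hs
          have : (0 : ℝ) < s := lt_of_lt_of_le ht hs.1
          exact (hd s this).continuousAt.continuousWithinAt
        · intro s hs
          rw [interior_Icc] at hs
          have : (0 : ℝ) < s := lt_trans ht hs.1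
          exact (hd s this).differentiableAt.differentiableWithinAt
        · intro s hs
          rw [interior_Icc] at hs
          have h0 : (0 : ℝ) < s := lt_trans ht hs.1
          have h1 : (0 : ℝ) ≤ 1 - s := by linarith [hs.2]
          rw [(hd s h0).deriv]
          have : (s - 1) ^ 3 = - (1 - s) ^ 3 := by ring
          rw [this, neg_div]
          have : 0 ≤ (1 - s) ^ 3 / s := by positivity
          linarith
      have := m (Set.mem_Icc.mpr ⟨le_rfl, h⟩) (Set.mem_Icc.mpr ⟨h, le_rfl⟩) h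
      linarith
  simp only [f] at key
  linarith

lemma vlog1 {v : ℝ} (h : 0 ≤ v) :
    v * Real.log v ≤ v * ((v - 1) - (v - 1) ^ 2 / 2 + (v - 1) ^ 3 / 3) := by
  rcases h.eq_or_lt with rfl | hp
  · simp
  · exact mul_le_mul_of_nonneg_left (log_le_cubic hp) h

lemma vlog2 {v : ℝ} (h : 0 < v) :
    v * Real.log v ≤ v * (6932 / 10000 + (v / 2 - 1) - (v / 2 - 1) ^ 2 / 2 + (v / 2 - 1) ^ 3 / 3) := by
  apply mul_le_mul_of_nonneg_left _ h.le
  have a := log_le_cubic (t := v / 2) (by positivity)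
  rw [Real.log_div h.ne' (by norm_num)] at a
  have := Real.log_two_lt_d9
  linarith

lemma vlog4 {v : ℝ} (h : 0 < v) :
    v * Real.log v
      ≤ v * (13864 / 10000 + (v / 4 - 1) - (v / 4 - 1) ^ 2 / 2 + (v / 4 - 1) ^ 3 / 3) := by
  apply mul_le_mul_of_nonneg_left _ h.le
  have a := log_le_cubic (t := v / 4) (by positivity)
  have e : Real.log 4 = 2 * Real.log 2 := by
    rw [show (4 : ℝ) = 2 ^ 2 by norm_num, Real.log_pow]
    norm_num
  rw [Real.log_div h.ne' (by norm_num), e] at a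
  have := Real.log_two_lt_d9
  linarith

/-- The separable quadratic. -/
noncomputable def q (x d : ℝ) : ℝ := - 11 / 50 * x * d + 11 / 20 * (7 / 10 - x) * d ^ 2

lemma I2 {v : ℝ} (h0 : 31 / 20 ≤ v) (h1 : v ≤ 25 / 4) :
    v * Real.log v - v + 1 ≤ 21 / 20 * (v - 1) ^ 2 + 3 * q (v - 1) (1 / 4 + v / 5) := by
  unfold q
  rcases le_total v 3 with h | h
  · have a := vlog2 (v := v) (by linarith)
    have s : 0 ≤ v - 31 / 20 := by linarith
    have t : 0 ≤ 3 - v := by linarith
    nlinarith [mul_nonneg s t, sq_nonneg (v - 39 / 20), mul_nonneg s (sq_nonneg (v - 39 / 20)),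
      mul_nonneg t (sq_nonneg (v - 39 / 20)), mul_nonneg (mul_nonneg s t) (sq_nonneg (v - 39 / 20)),
      mul_nonneg (mul_nonneg s t) s, mul_nonneg (mul_nonneg s t) t]
  · have a := vlog4 (v := v) (by linarith)
    have s : 0 ≤ v - 3 := by linarith
    have t : 0 ≤ 25 / 4 - v := by linarith
    nlinarith [mul_nonneg s t, mul_nonneg (mul_nonneg s t) s, mul_nonneg (mul_nonneg s t) t,
      mul_nonneg (mul_nonneg s t) (mul_nonneg s t), mul_nonneg (mul_nonneg s t) (mul_nonneg s s),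
      mul_nonneg (mul_nonneg s t) (mul_nonneg t t)]

lemma I3 {v : ℝ} (h0 : 17 / 10 ≤ v) (h1 : v ≤ 25 / 4) :
    v * Real.log v - v + 1
      ≤ 21 / 20 * (v - 1) ^ 2 + q (v - 1) (3 / 2) + 2 * q (v - 1) (2 * v / 5 - 1) := by
  unfold q
  rcases le_total v 3 with h | h
  · have a := vlog2 (v := v) (by linarith)
    have s : 0 ≤ v - 17 / 10 := by linarith
    have t : 0 ≤ 3 - v := by linarith
    nlinarith [mul_nonneg s t, sq_nonneg (v - 217 / 100), mul_nonneg s (sq_nonneg (v - 217 / 100)),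
      mul_nonneg t (sq_nonneg (v - 217 / 100)),
      mul_nonneg (mul_nonneg s t) (sq_nonneg (v - 217 / 100)),
      mul_nonneg (mul_nonneg s t) s, mul_nonneg (mul_nonneg s t) t]
  · have a := vlog4 (v := v) (by linarith)
    have s : 0 ≤ v - 3 := by linarith
    have t : 0 ≤ 25 / 4 - v := by linarith
    nlinarith [mul_nonneg s t, mul_nonneg (mul_nonneg s t) s, mul_nonneg (mul_nonneg s t) t,
      mul_nonneg (mul_nonneg s t) (mul_nonneg s t), mul_nonneg (mul_nonneg s t) (mul_nonneg s s),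
      mul_nonneg (mul_nonneg s t) (mul_nonneg t t)]

lemma caseA {v d1 d2 d3 : ℝ} (h0 : 0 ≤ v) (h1 : v ≤ 31 / 20) :
    v * Real.log v - v + 1
      ≤ 21 / 20 * (v - 1) ^ 2 + (q (v - 1) d1 + q (v - 1) d2 + q (v - 1) d3) := by
  have a := vlog1 h0
  obtain ⟨x, rfl⟩ : ∃ x, v = 1 + x := ⟨v - 1, by ring⟩
  simp only [add_sub_cancel_left] at a ⊢
  set c : ℝ := 11 / 20 * (7 / 10 - x) with hc
  have cp : 0 < c := by rw [hc]; linarith
  have e : ∀ d, - (11 / 100) ^ 2 * x ^ 2 ≤ c * q x d := by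
    intro d
    have : c * q x d = (c * d - 11 / 100 * x) ^ 2 - (11 / 100) ^ 2 * x ^ 2 := by
      rw [q, ← hc]
      ring
    rw [this]
    nlinarith [sq_nonneg (c * d - 11 / 100 * x)]
  have s : 0 ≤ x + 1 := by linarith
  have t : 0 ≤ 11 / 20 - x := by linarith
  have g : 3 * (11 / 100) ^ 2 ≤ c * (11 / 20 + x / 6 - x ^ 2 / 3) := by
    rw [hc]
    nlinarith [mul_nonneg s t, mul_nonneg (mul_nonneg s t) s, mul_nonneg (mul_nonneg s t) t]
  have g2 := mul_le_mul_of_nonneg_right g (sq_nonneg x)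
  have k : 0 ≤ c * ((11 / 20 + x / 6 - x ^ 2 / 3) * x ^ 2 + (q x d1 + q x d2 + q x d3)) := by
    have := e d1
    have := e d2
    have := e d3
    nlinarith
  have k2 := nonneg_of_mul_nonneg_right k cp
  nlinarith

lemma caseB {v d1 d2 d3 : ℝ} (h0 : 31 / 20 ≤ v) (h1 : v ≤ 17 / 10)
    (hS : d1 + d2 + d3 ≤ 3 * (1 / 4 + v / 5)) :
    3 * q (v - 1) (1 / 4 + v / 5) ≤ q (v - 1) d1 + q (v - 1) d2 + q (v - 1) d3 := by
  set m : ℝ := 1 / 4 + v / 5 with hm
  set c : ℝ := 11 / 20 * (7 / 10 - (v - 1)) with hc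
  have cp : 0 ≤ c := by rw [hc]; linarith
  have e : ∀ d, q (v - 1) d = q (v - 1) m + (- 11 / 50 * (v - 1) + 2 * c * m) * (d - m)
      + c * (d - m) ^ 2 := by
    intro d
    rw [q, q, ← hc]
    ring
  have g : 0 ≤ - (- 11 / 50 * (v - 1) + 2 * c * m) := by
    rw [hc, hm]
    nlinarith [mul_nonneg (sub_nonneg.mpr h0) (sub_nonneg.mpr h1)]
  have k := mul_nonneg g (sub_nonneg.mpr hS)
  rw [e d1, e d2, e d3]
  have := mul_nonneg cp (sq_nonneg (d1 - m))
  have := mul_nonneg cp (sq_nonneg (d2 - m))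
  have := mul_nonneg cp (sq_nonneg (d3 - m))
  nlinarith

lemma lin {a b e1 e2 s w : ℝ} (h1 : e1 ≤ s) (h2 : s ≤ e2) (k1 : w ≤ a + b * e1)
    (k2 : w ≤ a + b * e2) : w ≤ a + b * s := by
  rcases le_total 0 b with h | h
  · nlinarith [mul_nonneg h (sub_nonneg.mpr h1)]
  · nlinarith [mul_nonneg (neg_nonneg.mpr h) (sub_nonneg.mpr h2)]

lemma caseC {v a1 a2 a3 w : ℝ} (h0 : 17 / 10 ≤ v) (p1 : 0 ≤ a1) (p2 : 0 ≤ a2) (p3 : 0 ≤ a3)
    (r12 : a1 + a2 ≤ 5 / 2 - 2 * v / 5) (r13 : a1 + a3 ≤ 5 / 2 - 2 * v / 5)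
    (r23 : a2 + a3 ≤ 5 / 2 - 2 * v / 5)
    (k2 : w ≤ 3 * q (v - 1) (1 / 4 + v / 5))
    (k3 : w ≤ q (v - 1) (3 / 2) + 2 * q (v - 1) (2 * v / 5 - 1)) :
    w ≤ q (v - 1) (2 * v / 5 - 1 + a1) + q (v - 1) (2 * v / 5 - 1 + a2)
      + q (v - 1) (2 * v / 5 - 1 + a3) := by
  set D : ℝ := 5 / 2 - 2 * v / 5 with hD
  set l : ℝ := 2 * v / 5 - 1 with hl
  set c : ℝ := 11 / 20 * ((v - 1) - 7 / 10) with hc
  have cp : 0 ≤ c := by rw [hc]; linarith
  have Dp : 0 ≤ D := by linarith
  set p : ℝ := - 11 / 50 * (v - 1) - 2 * c * l with hp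
  have e : ∀ a, q (v - 1) (l + a) = q (v - 1) l + p * a - c * a ^ 2 := by
    intro a
    rw [q, q, hp, hc]
    ring
  have e3 : q (v - 1) (3 / 2) = q (v - 1) l + p * D - c * D ^ 2 := by
    rw [← e D, hl, hD]
    congr 1
    ring
  have e2 : q (v - 1) (1 / 4 + v / 5) = q (v - 1) l + p * (D / 2) - c * (D / 2) ^ 2 := by
    rw [← e (D / 2), hl, hD]
    congr 1
    ring
  have g : 0 ≤ c * D - p := by
    have : c * D - p = 11 / 50 * (v - 1) + c * (1 / 2 + 2 * v / 5) := by
      rw [hp, hD, hl]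
      ring
    rw [this]
    have : 0 ≤ c * (1 / 2 + 2 * v / 5) := mul_nonneg cp (by linarith)
    linarith
  rw [e a1, e a2, e a3]
  rw [e3] at k3
  rw [e2] at k2
  generalize q (v - 1) l = y at k2 k3 ⊢
  clear e e2 e3 hp hc hl hD
  clear_value p c l D
  rcases le_total (a1 + a2 + a3) D with h | h
  · have Q : a1 ^ 2 + a2 ^ 2 + a3 ^ 2 ≤ D * (a1 + a2 + a3) := by
      nlinarith [mul_nonneg p1 (by linarith : 0 ≤ D - a1), mul_nonneg p2 (by linarith : 0 ≤ D - a2),
        mul_nonneg p3 (by linarith : 0 ≤ D - a3)]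
    have Q2 := mul_le_mul_of_nonneg_left Q cp
    have := mul_nonneg g (sub_nonneg.mpr h)
    linarith
  · have Q : a1 ^ 2 + a2 ^ 2 + a3 ^ 2 ≤ D * (3 * D - (a1 + a2 + a3)) / 2 := by
      have b3 : 0 ≤ D - a1 - a2 := by linarith
      have b2 : 0 ≤ D - a1 - a3 := by linarith
      have b1 : 0 ≤ D - a2 - a3 := by linarith
      nlinarith [mul_nonneg b1 b2, mul_nonneg b1 b3, mul_nonneg b2 b3,
        mul_nonneg (sub_nonneg.mpr h) (by linarith : 0 ≤ 3 * D / 2 - (a1 + a2 + a3))]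
    have Q2 := mul_le_mul_of_nonneg_left Q cp
    have := lin (a := 3 * y - 3 * c * D ^ 2 / 2) (b := p + c * D / 2) (e1 := D)
      (e2 := 3 * D / 2) (s := a1 + a2 + a3) (w := w) h (by linarith) (by linarith) (by linarith)
    linarith

/-- The pointwise inequality between the triple codegree and the three pair codegrees. -/
lemma pointwise {v u1 u2 u3 : ℝ} (h0 : 0 ≤ v) (p1 : v ≤ 5 / 2 * u1) (p2 : v ≤ 5 / 2 * u2)
    (p3 : v ≤ 5 / 2 * u3) (r12 : 5 / 2 * (u1 + u2) - 25 / 4 ≤ v)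
    (r13 : 5 / 2 * (u1 + u3) - 25 / 4 ≤ v) (r23 : 5 / 2 * (u2 + u3) - 25 / 4 ≤ v) :
    v * Real.log v - v + 1
      ≤ 21 / 20 * (v - 1) ^ 2 + (q (v - 1) (u1 - 1) + q (v - 1) (u2 - 1) + q (v - 1) (u3 - 1)) := by
  rcases le_total v (31 / 20) with h | h
  · exact caseA h0 h
  have hv : v ≤ 25 / 4 := by linarith
  have k2 := I2 h hv
  rcases le_total v (17 / 10) with h' | h'
  · have := caseB (d1 := u1 - 1) (d2 := u2 - 1) (d3 := u3 - 1) h h' (by linarith)
    linarith
  · have k3 := I3 h' hv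
    have := caseC (a1 := u1 - 2 * v / 5) (a2 := u2 - 2 * v / 5) (a3 := u3 - 2 * v / 5)
      (w := v * Real.log v - v + 1 - 21 / 20 * (v - 1) ^ 2) h' (by linarith) (by linarith)
      (by linarith) (by linarith) (by linarith) (by linarith) (by linarith) (by linarith)
    rw [show 2 * v / 5 - 1 + (u1 - 2 * v / 5) = u1 - 1 by ring,
      show 2 * v / 5 - 1 + (u2 - 2 * v / 5) = u2 - 1 by ring,
      show 2 * v / 5 - 1 + (u3 - 2 * v / 5) = u3 - 1 by ring] at this
    linarith

/-- The budget inequality for a single codegree. -/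
lemma budget {u : ℝ} (h0 : 0 ≤ u) (h1 : u ≤ 5 / 2) :
    729 / 200 * (u - 1) ^ 2 - 3 / 5 * (u - 1) ^ 3 ≤ 8 * (u * Real.log u - u + 1) := by
  rcases h0.eq_or_lt with rfl | hp
  · norm_num
  rcases le_total u (5 / 12) with h2 | h2
  · have a := Real.log_le_sub_one_of_pos (x := 1 / (4 * u)) (by positivity)
    have e : Real.log 4 = 2 * Real.log 2 := by
      rw [show (4 : ℝ) = 2 ^ 2 by norm_num, Real.log_pow]
      norm_num
    rw [Real.log_div (by norm_num) (by positivity), Real.log_mul (by norm_num) hp.ne', e,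
      Real.log_one] at a
    have l2 := Real.log_two_lt_d9
    have b : u * (- (13864 / 10000) + 1 - 1 / (4 * u)) ≤ u * Real.log u :=
      mul_le_mul_of_nonneg_left (by linarith) hp.le
    have c : u * (- (13864 / 10000) + 1 - 1 / (4 * u)) = - (3864 / 10000) * u - 1 / 4 := by
      field_simp
      ring
    rw [c] at b
    have t : 0 ≤ 5 / 12 - u := by linarith
    nlinarith [mul_nonneg hp.le t, mul_nonneg (mul_nonneg hp.le t) hp.le,
      mul_nonneg (mul_nonneg hp.le t) t]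
  rcases le_total u 1 with h | h
  · have a : - Real.log u ≤ Real.sinh (- Real.log u) :=
      Real.self_le_sinh_iff.mpr (by have := Real.log_nonpos hp.le h; linarith)
    rw [Real.sinh_eq, neg_neg, Real.exp_neg, Real.exp_log hp] at a
    have b : u * (- Real.log u) ≤ u * ((u⁻¹ - u) / 2) := mul_le_mul_of_nonneg_left a hp.le
    have c : u * ((u⁻¹ - u) / 2) = (1 - u ^ 2) / 2 := by field_simp
    rw [c] at b
    nlinarith [mul_nonneg (sq_nonneg (u - 1)) (by linarith : (0 : ℝ) ≤ u - 5 / 12), sq_nonneg (u - 1)]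
  · set z := (u - 1) / (u + 1) with hz
    have z0 : 0 ≤ z := div_nonneg (by linarith) (by linarith)
    have z1 : z ≤ 3 / 7 := by
      rw [hz, div_le_iff₀ (by linarith)]
      linarith
    have hs := Real.hasSum_log_sub_log_of_abs_lt_one (x := z)
      (by rw [abs_of_nonneg z0]; linarith)
    have hl := sum_le_hasSum (Finset.range 3) (fun k _ => by positivity) hs
    have hu : u = (1 + z) / (1 - z) := by
      rw [hz]
      field_simp
      ring
    have hz1 : 0 < 1 - z := by linarith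
    have e : Real.log (1 + z) - Real.log (1 - z) = Real.log u := by
      rw [hu, Real.log_div (by linarith) hz1.ne']
    rw [e] at hl
    simp only [Finset.sum_range_succ, Finset.sum_range_zero] at hl
    norm_num at hl
    have b : u * (2 * z + 2 / 3 * z ^ 3 + 2 / 5 * z ^ 5) ≤ u * Real.log u :=
      mul_le_mul_of_nonneg_left (by linarith) hp.le
    have d : 8 * (u * (2 * z + 2 / 3 * z ^ 3 + 2 / 5 * z ^ 5) - u + 1)
        - (729 / 200 * (u - 1) ^ 2 - 3 / 5 * (u - 1) ^ 3)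
        = z ^ 2 * (8 * (1 - z) ^ 2 * (2 + 2 / 3 * z * (1 + z) + 2 / 5 * z ^ 3 * (1 + z))
          - 729 / 50 * (1 - z) + 24 / 5 * z) / (1 - z) ^ 3 := by
      rw [hu]
      field_simp
      ring
    have g : 0 ≤ 8 * (1 - z) ^ 2 * (2 + 2 / 3 * z * (1 + z) + 2 / 5 * z ^ 3 * (1 + z))
          - 729 / 50 * (1 - z) + 24 / 5 * z := by
      have w0 : 0 ≤ 3 / 7 - z := by linarith
      have y := sq_nonneg (z - 9 / 25)
      nlinarith [mul_nonneg z0 w0, mul_nonneg z0 y, mul_nonneg w0 y,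
        mul_nonneg (mul_nonneg z0 w0) y, mul_nonneg (mul_nonneg z0 z0) y,
        mul_nonneg (mul_nonneg (mul_nonneg z0 z0) w0) y,
        mul_nonneg (mul_nonneg (mul_nonneg z0 z0) z0) y,
        mul_nonneg (mul_nonneg (mul_nonneg (mul_nonneg z0 z0) z0) w0) y,
        mul_nonneg (mul_nonneg (mul_nonneg (mul_nonneg z0 z0) z0) z0) y]
    have : 0 ≤ z ^ 2 * (8 * (1 - z) ^ 2 * (2 + 2 / 3 * z * (1 + z) + 2 / 5 * z ^ 3 * (1 + z))
          - 729 / 50 * (1 - z) + 24 / 5 * z) / (1 - z) ^ 3 := by positivity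
    linarith

end Pool.Agent.MP_344f7e_co.H51
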