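import Mathlib
import Pool.Agent.MP_344f7e_co.H86.Dense
import Pool.Agent.MP_344f7e_co.H51.Ineq

/-!
The Moebius ladder count for sets of density at least two fifths.
-/

set_option autoImplicit false

namespace Pool.Agent.MP_344f7e_co.H51

open Finset Pool.Agent.MP_344f7e_co.H86 Pool.Agent.MP_344f7e_co.H86.FD

variable {G : Type} [AddCommGroup G] [Fintype G] [DecidableEq G] {A : Finset G}

/-- Normalised triple codegree. -/
noncomputable def tri (A : Finset G) (a b c : G) : ℝ :=
  (Fintype.card G : ℝ) ^ 2 * (∑ x, ind (a + x ∈ A) * ind (b + x ∈ A) * ind (c + x ∈ A))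
    / (A.card : ℝ) ^ 3

lemma tri_swap12 (a b c : G) : tri A a b c = tri A b a c := by
  unfold tri
  congr 2
  exact Finset.sum_congr rfl fun x _ => by ring

lemma tri_swap23 (a b c : G) : tri A a b c = tri A a c b := by
  unfold tri
  congr 2
  exact Finset.sum_congr rfl fun x _ => by ring

lemma cod_swap (a b : G) : cod A (a, b) = cod A (b, a) := by
  unfold cod
  congr 2
  exact Finset.sum_congr rfl fun x _ => by ring

lemma law3_EA (hA : A.Nonempty) (b : G × G × G) :
    (L3 (EA hA)).law (fun z => (z.1.1.2, z.1.2.2, z.2.2)) b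
      = tri A b.1 b.2.1 b.2.2 / (Fintype.card G : ℝ) ^ 3 := by
  have hD : (A.card : ℝ) ≠ 0 := by exact_mod_cast hA.card_pos.ne'
  have hN : (Fintype.card G : ℝ) ≠ 0 := by exact_mod_cast Fintype.card_ne_zero
  obtain ⟨y, y', y''⟩ := b
  rw [law_lv3, tri, Finset.mul_sum, Finset.sum_div, Finset.sum_div]
  apply Finset.sum_congr rfl
  intro x _
  rw [EA_p, EA_p, EA_p, EA_fst, add_comm x y, add_comm x y', add_comm x y'']
  field_simp

lemma h3_eq (hA : A.Nonempty) :
    h3 (EA hA) = 3 * Real.log (Fintype.card G)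
      - (∑ b : G × G × G, tri A b.1 b.2.1 b.2.2 * Real.log (tri A b.1 b.2.1 b.2.2))
        / (Fintype.card G : ℝ) ^ 3 := by
  have hN : (0 : ℝ) < Fintype.card G := by exact_mod_cast Fintype.card_pos
  have s := (L3 (EA hA)).sum_law (fun z => (z.1.1.2, z.1.2.2, z.2.2))
  unfold h3
  rw [FD.H_eq]
  have : ∑ b, (L3 (EA hA)).law (fun z => (z.1.1.2, z.1.2.2, z.2.2)) b
        * Real.log ((L3 (EA hA)).law (fun z => (z.1.1.2, z.1.2.2, z.2.2)) b)
      = ∑ b : G × G × G, (tri A b.1 b.2.1 b.2.2 * Real.log (tri A b.1 b.2.1 b.2.2)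
          / (Fintype.card G : ℝ) ^ 3
        - (L3 (EA hA)).law (fun z => (z.1.1.2, z.1.2.2, z.2.2)) b
          * (3 * Real.log (Fintype.card G))) := by
    apply Finset.sum_congr rfl
    intro b _
    rw [law3_EA]
    by_cases h : tri A b.1 b.2.1 b.2.2 = 0
    · simp [h]
    · rw [Real.log_div h (by positivity), Real.log_pow]
      push_cast
      ring
  rw [this, Finset.sum_sub_distrib, ← Finset.sum_mul, s, ← Finset.sum_div]
  ring

lemma sum_tri (hA : A.Nonempty) (a b : G) :
    ∑ c, tri A a b c = Fintype.card G * cod A (a, b) := by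
  have hD : (A.card : ℝ) ≠ 0 := by exact_mod_cast hA.card_pos.ne'
  have e : ∑ c, ∑ x, ind (a + x ∈ A) * ind (b + x ∈ A) * ind (c + x ∈ A)
      = (∑ x, ind (a + x ∈ A) * ind (b + x ∈ A)) * A.card := by
    rw [Finset.sum_comm, Finset.sum_mul]
    apply Finset.sum_congr rfl
    intro x _
    rw [← Finset.mul_sum, ← sum_ind_shift (A := A) x]
    simp only [add_comm x]
  simp only [tri, cod]
  rw [← Finset.sum_div, ← Finset.mul_sum, e]
  field_simp

lemma sum_tri_sq (hA : A.Nonempty) :
    ∑ b : G × G × G, tri A b.1 b.2.1 b.2.2 ^ 2 = Fintype.card G * ∑ c, cod A c ^ 3 := by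
  have hD : (A.card : ℝ) ≠ 0 := by exact_mod_cast hA.card_pos.ne'
  have e := cube_swap (fun x y : G => ind (y + x ∈ A))
  simp only [tri, cod, div_pow, mul_pow, ← Finset.sum_div, ← Finset.mul_sum]
  rw [e]
  simp only [add_comm _ (Prod.fst _), add_comm _ (Prod.snd _)]
  field_simp

lemma sum12 (hA : A.Nonempty) (f g : ℝ → ℝ) :
    ∑ a, ∑ b, ∑ c, (tri A a b c * f (cod A (a, b)) + g (cod A (a, b)))
      = Fintype.card G * ∑ c, (cod A c * f (cod A c) + g (cod A c)) := by
  rw [Fintype.sum_prod_type, Finset.mul_sum]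
  apply Finset.sum_congr rfl
  intro a _
  rw [Finset.mul_sum]
  apply Finset.sum_congr rfl
  intro b _
  rw [Finset.sum_add_distrib, ← Finset.sum_mul, sum_tri hA, Finset.sum_const, Finset.card_univ,
    nsmul_eq_mul]
  ring

lemma sum13 (hA : A.Nonempty) (f g : ℝ → ℝ) :
    ∑ a, ∑ b, ∑ c, (tri A a b c * f (cod A (a, c)) + g (cod A (a, c)))
      = Fintype.card G * ∑ c, (cod A c * f (cod A c) + g (cod A c)) := by
  rw [← sum12 hA f g]
  apply Finset.sum_congr rfl
  intro a _
  rw [Finset.sum_comm]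
  simp only [tri_swap23 a]

lemma sum23 (hA : A.Nonempty) (f g : ℝ → ℝ) :
    ∑ a, ∑ b, ∑ c, (tri A a b c * f (cod A (b, c)) + g (cod A (b, c)))
      = Fintype.card G * ∑ c, (cod A c * f (cod A c) + g (cod A c)) := by
  rw [← sum13 hA f g, Finset.sum_comm]
  apply Finset.sum_congr rfl
  intro a _
  apply Finset.sum_congr rfl
  intro b _
  simp only [tri_swap12 b a]

lemma tri_nonneg (a b c : G) : 0 ≤ tri A a b c := by
  have : 0 ≤ ∑ x, ind (a + x ∈ A) * ind (b + x ∈ A) * ind (c + x ∈ A) :=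
    Finset.sum_nonneg fun x _ => mul_nonneg (mul_nonneg (ind_nonneg _) (ind_nonneg _)) (ind_nonneg _)
  unfold tri
  positivity

lemma tri_le (hA : A.Nonempty) {M : ℝ} (hM : (Fintype.card G : ℝ) / A.card ≤ M) (a b c : G) :
    tri A a b c ≤ M * cod A (a, b) := by
  have hD : (0 : ℝ) < A.card := by exact_mod_cast hA.card_pos
  have k : ∑ x, ind (a + x ∈ A) * ind (b + x ∈ A) * ind (c + x ∈ A)
      ≤ ∑ x, ind (a + x ∈ A) * ind (b + x ∈ A) := by
    apply Finset.sum_le_sum
    intro x _
    have := mul_nonneg (ind_nonneg (a + x ∈ A)) (ind_nonneg (b + x ∈ A))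
    have := ind_le_one (c + x ∈ A)
    nlinarith
  have e : tri A a b c ≤ Fintype.card G / A.card * cod A (a, b) := by
    have : (Fintype.card G : ℝ) / A.card * cod A (a, b)
        = (Fintype.card G : ℝ) ^ 2 * (∑ x, ind (a + x ∈ A) * ind (b + x ∈ A)) / (A.card : ℝ) ^ 3 := by
      simp only [cod]
      field_simp
    rw [this, tri]
    gcongr
  exact e.trans (mul_le_mul_of_nonneg_right hM (cod_nonneg _))

lemma tri_ge (hA : A.Nonempty) {M : ℝ} (hM : (Fintype.card G : ℝ) / A.card ≤ M) (a b c : G) :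
    M * (cod A (a, b) + cod A (a, c)) - M ^ 2 ≤ tri A a b c := by
  have hD : (0 : ℝ) < A.card := by exact_mod_cast hA.card_pos
  have k : (∑ x, ind (a + x ∈ A) * ind (b + x ∈ A)) + (∑ x, ind (a + x ∈ A) * ind (c + x ∈ A))
      - A.card ≤ ∑ x, ind (a + x ∈ A) * ind (b + x ∈ A) * ind (c + x ∈ A) := by
    rw [← sum_ind_shift (A := A) a, ← Finset.sum_add_distrib, ← Finset.sum_sub_distrib]
    apply Finset.sum_le_sum
    intro x _
    have := mul_nonneg (mul_nonneg (ind_nonneg (a + x ∈ A))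
      (sub_nonneg.mpr (ind_le_one (b + x ∈ A)))) (sub_nonneg.mpr (ind_le_one (c + x ∈ A)))
    linarith
  set m : ℝ := Fintype.card G / A.card with hm
  have e : m * (cod A (a, b) + cod A (a, c)) - m ^ 2 ≤ tri A a b c := by
    have : m * (cod A (a, b) + cod A (a, c)) - m ^ 2
        = (Fintype.card G : ℝ) ^ 2 * ((∑ x, ind (a + x ∈ A) * ind (b + x ∈ A))
          + (∑ x, ind (a + x ∈ A) * ind (c + x ∈ A)) - A.card) / (A.card : ℝ) ^ 3 := by
      simp only [cod, hm]
      field_simp
    rw [this, tri]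
    gcongr
  have u1 := cod_le hA (a, b)
  have u2 := cod_le hA (a, c)
  rw [← hm] at u1 u2
  have := mul_nonneg (sub_nonneg.mpr hM)
    (by linarith : 0 ≤ M + m - (cod A (a, b) + cod A (a, c)))
  linarith

/-- The coefficient of the triple codegree. -/
noncomputable def lam (u : ℝ) : ℝ := - 11 / 30 - 11 / 50 * (u - 1) - 11 / 20 * (u - 1) ^ 2

/-- The free term. -/
noncomputable def psi (u : ℝ) : ℝ := 1 / 60 + 11 / 50 * (u - 1) + 187 / 200 * (u - 1) ^ 2

lemma triple_le (hA : A.Nonempty) (hM : (Fintype.card G : ℝ) / A.card ≤ 5 / 2) :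
    ∑ b : G × G × G, tri A b.1 b.2.1 b.2.2 * Real.log (tri A b.1 b.2.1 b.2.2)
      ≤ Fintype.card G * (8 * ∑ c, cod A c * Real.log (cod A c)) := by
  have hN : (0 : ℝ) < Fintype.card G := by exact_mod_cast Fintype.card_pos
  have p : ∀ a b c : G, tri A a b c * Real.log (tri A a b c)
      ≤ 21 / 20 * tri A a b c ^ 2 + ((tri A a b c * lam (cod A (a, b)) + psi (cod A (a, b)))
        + (tri A a b c * lam (cod A (a, c)) + psi (cod A (a, c)))
        + (tri A a b c * lam (cod A (b, c)) + psi (cod A (b, c)))) := by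
    intro a b c
    have t1 := tri_le hA hM a b c
    have t2 := tri_le hA hM a c b
    have t3 := tri_le hA hM b c a
    have s1 := tri_ge hA hM a b c
    have s2 := tri_ge hA hM b a c
    have s3 := tri_ge hA hM c a b
    rw [← tri_swap23] at t2
    rw [tri_swap23 b, ← tri_swap12] at t3
    rw [← tri_swap12, cod_swap b a] at s2
    rw [tri_swap12 c, ← tri_swap23, cod_swap c a, cod_swap c b] at s3
    have := pointwise (tri_nonneg (A := A) a b c) t1 t2 t3 (by linarith) (by linarith) (by linarith)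
    simp only [q] at this
    simp only [lam, psi]
    linarith
  have s1 : ∑ b : G × G × G, tri A b.1 b.2.1 b.2.2 * Real.log (tri A b.1 b.2.1 b.2.2)
      ≤ 21 / 20 * (Fintype.card G * ∑ c, cod A c ^ 3)
        + 3 * (Fintype.card G * ∑ c, (cod A c * lam (cod A c) + psi (cod A c))) := by
    have e : 3 * (Fintype.card G * ∑ c, (cod A c * lam (cod A c) + psi (cod A c)))
        = ∑ a, ∑ b, ∑ c, ((tri A a b c * lam (cod A (a, b)) + psi (cod A (a, b)))
        + (tri A a b c * lam (cod A (a, c)) + psi (cod A (a, c)))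
        + (tri A a b c * lam (cod A (b, c)) + psi (cod A (b, c)))) := by
      have e1 := sum12 hA lam psi
      have e2 := sum13 hA lam psi
      have e3 := sum23 hA lam psi
      simp only [Finset.sum_add_distrib] at e1 e2 e3 ⊢
      linarith
    rw [← sum_tri_sq hA, e, Finset.mul_sum]
    simp only [Fintype.sum_prod_type, ← Finset.sum_add_distrib]
    exact Finset.sum_le_sum fun a _ => Finset.sum_le_sum fun b _ =>
      Finset.sum_le_sum fun c _ => p a b c
  have s2 : ∑ c, (21 / 20 * cod A c ^ 3 + 3 * (cod A c * lam (cod A c) + psi (cod A c)))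
      ≤ ∑ c, (8 * (cod A c * Real.log (cod A c)) - 119 / 20 * cod A c + 119 / 20) := by
    apply Finset.sum_le_sum
    intro c _
    have := budget (cod_nonneg (A := A) c) ((cod_le hA c).trans hM)
    simp only [lam, psi]
    linarith
  rw [Finset.sum_add_distrib, Finset.sum_add_distrib, Finset.sum_sub_distrib, ← Finset.mul_sum,
    ← Finset.mul_sum, ← Finset.mul_sum, ← Finset.mul_sum, sum_cod hA, Finset.sum_const,
    Finset.card_univ, Fintype.card_prod, nsmul_eq_mul] at s2
  push_cast at s2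
  have s3 := mul_le_mul_of_nonneg_left s2 hN.le
  nlinarith

theorem dense_log (hA : A.Nonempty) (hM : (Fintype.card G : ℝ) / A.card ≤ 5 / 2)
    (T : Finset ((Fin 5 → G) × (Fin 5 → G)))
    (hT : ∀ p, IsHom (fun x y => x + y ∈ A) p → p ∈ T) :
    15 * Real.log A.card - 5 * Real.log (Fintype.card G) ≤ Real.log T.card := by
  have hN : (0 : ℝ) < Fintype.card G := by exact_mod_cast Fintype.card_pos
  have a := bound_refl (R := fun x y => x + y ∈ A) (EA_supp hA) T hT
  have x1 : hx (EA hA) ≤ Real.log (Fintype.card G) := (EA hA).H_le_log _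
  have y1 : hy (EA hA) ≤ Real.log (Fintype.card G) := (EA hA).H_le_log _
  rw [h2x_EA, he_EA, h2_EA, h3_eq] at a
  have b := triple_le hA hM
  have d : (∑ b : G × G × G, tri A b.1 b.2.1 b.2.2 * Real.log (tri A b.1 b.2.1 b.2.2))
        / (Fintype.card G : ℝ) ^ 3
      ≤ 8 * ((∑ c, cod A c * Real.log (cod A c)) / (Fintype.card G : ℝ) ^ 2) := by
    rw [div_le_iff₀ (by positivity)]
    refine b.trans (le_of_eq ?_)
    field_simp
  linarith

end Pool.Agent.MP_344f7e_co.H51
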