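import Mathlib
import Pool.Agent.MP_344f7e_co.H86.Dense
import Pool.Agent.MP_344f7e_co.H51.Main

/-!
The Moebius ladder count for doubly stochastic kernels bounded by five halves.
-/

set_option autoImplicit false

namespace Pool.Agent.MP_344f7e_co.H51

open Finset Pool.Agent.MP_344f7e_co.H86 Pool.Agent.MP_344f7e_co.H86.FD

lemma H_pair {Ω β : Type} [Fintype Ω] [Fintype β] (P : FD Ω) (U V : Ω → β) (n : β → ℝ)
    (hU : ∀ b, P.law U b = n b) (hV : ∀ b, P.law V b = n b) (u : β → β → ℝ)
    (h : ∀ a b, P.law (fun w => (U w, V w)) (a, b) = n a * n b * u a b) :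
    P.H (fun w => (U w, V w))
      = P.H U + P.H V - ∑ a, ∑ b, n a * n b * (u a b * Real.log (u a b)) := by
  have e := P.expect (fun w => (U w, V w)) (fun c => Real.log (u c.1 c.2))
  rw [Fintype.sum_prod_type] at e
  simp only [h, mul_assoc] at e
  simp only [mul_assoc]
  rw [← e]
  unfold H
  rw [← neg_add, ← Finset.sum_add_distrib, sub_eq_add_neg, ← neg_add, ← Finset.sum_add_distrib]
  congr 1
  apply Finset.sum_congr rfl
  intro w _
  by_cases hw : P.p w = 0
  · simp [hw]
  · have a := (P.law_pos (fun w => (U w, V w)) hw).ne'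
    simp only [h] at a ⊢
    have a1 := left_ne_zero_of_mul a
    rw [Real.log_mul a1 (right_ne_zero_of_mul a),
      Real.log_mul (left_ne_zero_of_mul a1) (right_ne_zero_of_mul a1), hU, hV]
    ring

lemma H_triple {Ω β : Type} [Fintype Ω] [Fintype β] (P : FD Ω) (U V W : Ω → β) (n : β → ℝ)
    (hU : ∀ b, P.law U b = n b) (hV : ∀ b, P.law V b = n b) (hW : ∀ b, P.law W b = n b)
    (u : β → β → β → ℝ)
    (h : ∀ a b c, P.law (fun w => (U w, V w, W w)) (a, b, c) = n a * n b * n c * u a b c) :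
    P.H (fun w => (U w, V w, W w))
      = P.H U + P.H V + P.H W
        - ∑ a, ∑ b, ∑ c, n a * n b * n c * (u a b c * Real.log (u a b c)) := by
  have e := P.expect (fun w => (U w, V w, W w)) (fun c => Real.log (u c.1 c.2.1 c.2.2))
  simp only [Fintype.sum_prod_type] at e
  simp only [h, mul_assoc] at e
  simp only [mul_assoc]
  rw [← e]
  unfold H
  rw [← neg_add, ← neg_add, ← Finset.sum_add_distrib, ← Finset.sum_add_distrib, sub_eq_add_neg,
    ← neg_add, ← Finset.sum_add_distrib]
  congr 1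
  apply Finset.sum_congr rfl
  intro w _
  by_cases hw : P.p w = 0
  · simp [hw]
  · have a := (P.law_pos (fun w => (U w, V w, W w)) hw).ne'
    simp only [h] at a ⊢
    have a1 := left_ne_zero_of_mul a
    have a2 := left_ne_zero_of_mul a1
    rw [Real.log_mul a1 (right_ne_zero_of_mul a), Real.log_mul a2 (right_ne_zero_of_mul a1),
      Real.log_mul (left_ne_zero_of_mul a2) (right_ne_zero_of_mul a2), hU, hV, hW]
    ring

/-- A doubly stochastic kernel bounded by five halves. -/
structure Ker (X Y : Type) [Fintype X] [Fintype Y] where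
  m : X → ℝ
  n : Y → ℝ
  g : X → Y → ℝ
  m0 : ∀ x, 0 ≤ m x
  n0 : ∀ y, 0 ≤ n y
  g0 : ∀ x y, 0 ≤ g x y
  g1 : ∀ x y, g x y ≤ 5 / 2
  ms : ∑ x, m x = 1
  ns : ∑ y, n y = 1
  row : ∀ x, m x * ∑ y, n y * g x y = m x
  col : ∀ y, n y * ∑ x, m x * g x y = n y
  row1 : ∀ x, ∑ y, n y * g x y ≤ 1
  col1 : ∀ y, ∑ x, m x * g x y ≤ 1

namespace Ker

variable {X Y : Type} [Fintype X] [Fintype Y] (K : Ker X Y)

/-- The transposed kernel. -/
def tr : Ker Y X where
  m := K.n
  n := K.m
  g := fun y x => K.g x y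
  m0 := K.n0
  n0 := K.m0
  g0 := fun y x => K.g0 x y
  g1 := fun y x => K.g1 x y
  ms := K.ns
  ns := K.ms
  row := K.col
  col := K.row
  row1 := K.col1
  col1 := K.row1

/-- The edge distribution. -/
noncomputable def fd : FD (X × Y) where
  p e := K.m e.1 * K.n e.2 * K.g e.1 e.2
  nonneg e := mul_nonneg (mul_nonneg (K.m0 _) (K.n0 _)) (K.g0 _ _)
  sum_eq := by
    rw [Fintype.sum_prod_type, ← K.ms]
    apply Finset.sum_congr rfl
    intro x _
    rw [← K.row x, Finset.mul_sum]
    apply Finset.sum_congr rfl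
    intro y _
    ring

lemma fd_p (x : X) (y : Y) : K.fd.p (x, y) = K.m x * K.n y * K.g x y := rfl

lemma fd_fst (x : X) : K.fd.law Prod.fst x = K.m x := by
  rw [law_marg K.fd Prod.snd]
  simp only [law_swap, fd_p, mul_assoc]
  rw [← Finset.mul_sum, K.row]

lemma fd_snd (y : Y) : K.fd.law Prod.snd y = K.n y := by
  rw [law_marg K.fd Prod.fst]
  simp only [law_id, fd_p]
  refine Eq.trans ?_ (K.col y)
  rw [Finset.mul_sum]
  apply Finset.sum_congr rfl
  intro x _
  ring

/-- Codegree. -/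
noncomputable def u (a b : Y) : ℝ := ∑ x, K.m x * K.g x a * K.g x b

/-- Triple codegree. -/
noncomputable def v (a b c : Y) : ℝ := ∑ x, K.m x * K.g x a * K.g x b * K.g x c

/-- Pair information. -/
noncomputable def D2 : ℝ := ∑ a, ∑ b, K.n a * K.n b * (K.u a b * Real.log (K.u a b))

/-- Triple information. -/
noncomputable def D3 : ℝ :=
  ∑ a, ∑ b, ∑ c, K.n a * K.n b * K.n c * (K.v a b c * Real.log (K.v a b c))

/-- Third moment of the codegree. -/
noncomputable def C3 : ℝ := ∑ a, ∑ b, K.n a * K.n b * K.u a b ^ 3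

/-- The separable part. -/
noncomputable def Lp (f h : ℝ → ℝ) : ℝ :=
  ∑ a, ∑ b, K.n a * K.n b * (K.u a b * f (K.u a b) + h (K.u a b))

lemma u_swap (a b : Y) : K.u a b = K.u b a :=
  Finset.sum_congr rfl fun x _ => by ring

lemma v_swap12 (a b c : Y) : K.v a b c = K.v b a c :=
  Finset.sum_congr rfl fun x _ => by ring

lemma v_swap23 (a b c : Y) : K.v a b c = K.v a c b :=
  Finset.sum_congr rfl fun x _ => by ring

lemma h2_eq : h2 K.fd = 2 * hy K.fd - K.D2 := by
  have s1 : Same (L2 K.fd) (fun z => z.1.2) K.fd Prod.snd := (e21 K.fd).map Prod.snd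
  have s2 : Same (L2 K.fd) (fun z => z.2.2) K.fd Prod.snd := (e22 K.fd).map Prod.snd
  have := H_pair (L2 K.fd) (fun z => z.1.2) (fun z => z.2.2) K.n
    (fun b => (s1 b).trans (K.fd_snd b)) (fun b => (s2 b).trans (K.fd_snd b)) K.u (by
      intro a b
      rw [law_lv2, u, Finset.mul_sum]
      apply Finset.sum_congr rfl
      intro x _
      rw [fd_p, fd_p, fd_fst]
      by_cases hx : K.m x = 0
      · simp [hx]
      · field_simp)
  rw [s1.H_eq, s2.H_eq] at this
  unfold h2 hy D2
  linarith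

lemma h2x_eq : h2x K.fd = 2 * hx K.fd - K.tr.D2 := by
  have s1 : Same (C2 K.fd) (fun z => z.1.1) K.fd Prod.fst := glue_fst _ Prod.fst
  have s2 : Same (C2 K.fd) (fun z => z.2.1) K.fd Prod.fst := glue_snd _ Prod.fst
  have := H_pair (C2 K.fd) (fun z => z.1.1) (fun z => z.2.1) K.m
    (fun b => (s1 b).trans (K.fd_fst b)) (fun b => (s2 b).trans (K.fd_fst b)) K.tr.u (by
      intro a b
      rw [law_lv2x, u, Finset.mul_sum]
      apply Finset.sum_congr rfl
      intro y _
      rw [fd_p, fd_p, fd_snd]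
      simp only [tr]
      by_cases hx : K.n y = 0
      · simp [hx]
      · field_simp)
  rw [s1.H_eq, s2.H_eq] at this
  unfold h2x hx D2
  simp only [tr] at this ⊢
  linarith

lemma h3_eq : h3 K.fd = 3 * hy K.fd - K.D3 := by
  have s1 : Same (L3 K.fd) (fun z => z.1.1.2) K.fd Prod.snd := (e31 K.fd).map Prod.snd
  have s2 : Same (L3 K.fd) (fun z => z.1.2.2) K.fd Prod.snd :=
    ((s312 K.fd).map Prod.snd).trans ((e22 K.fd).map Prod.snd)
  have s3 : Same (L3 K.fd) (fun z => z.2.2) K.fd Prod.snd := (e33 K.fd).map Prod.snd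
  have := H_triple (L3 K.fd) (fun z => z.1.1.2) (fun z => z.1.2.2) (fun z => z.2.2) K.n
    (fun b => (s1 b).trans (K.fd_snd b)) (fun b => (s2 b).trans (K.fd_snd b))
    (fun b => (s3 b).trans (K.fd_snd b)) K.v (by
      intro a b c
      rw [law_lv3, v, Finset.mul_sum]
      apply Finset.sum_congr rfl
      intro x _
      rw [fd_p, fd_p, fd_p, fd_fst]
      by_cases hx : K.m x = 0
      · simp [hx]
      · field_simp)
  rw [s1.H_eq, s2.H_eq, s3.H_eq] at this
  unfold h3 hy D3
  linarith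

lemma sum_v (a b : Y) : ∑ c, K.n c * K.v a b c = K.u a b := by
  simp only [v, u, Finset.mul_sum]
  rw [Finset.sum_comm]
  apply Finset.sum_congr rfl
  intro x _
  have : ∑ c, K.n c * (K.m x * K.g x a * K.g x b * K.g x c)
      = (K.m x * ∑ c, K.n c * K.g x c) * K.g x a * K.g x b := by
    rw [Finset.mul_sum, Finset.sum_mul, Finset.sum_mul]
    exact Finset.sum_congr rfl fun c _ => by ring
  rw [this, K.row]

lemma sum_u : ∑ a, ∑ b, K.n a * K.n b * K.u a b = 1 := by
  have e : ∀ a, ∑ b, K.n a * K.n b * K.u a b = K.n a := by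
    intro a
    have : ∑ b, K.n b * K.u a b = ∑ x, K.m x * K.g x a := by
      simp only [u, Finset.mul_sum]
      rw [Finset.sum_comm]
      apply Finset.sum_congr rfl
      intro x _
      have : ∑ c, K.n c * (K.m x * K.g x a * K.g x c)
          = (K.m x * ∑ c, K.n c * K.g x c) * K.g x a := by
        rw [Finset.mul_sum, Finset.sum_mul]
        exact Finset.sum_congr rfl fun c _ => by ring
      rw [this, K.row]
    simp only [mul_assoc]
    rw [← Finset.mul_sum, this, K.col]
  simp only [e, K.ns]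

lemma sum_v_sq : ∑ a, ∑ b, ∑ c, K.n a * K.n b * K.n c * K.v a b c ^ 2 = K.tr.C3 := by
  have l : ∀ a b c, K.n a * K.n b * K.n c * K.v a b c ^ 2
      = ∑ x, ∑ x', K.m x * K.m x' * ((K.n a * K.g x a * K.g x' a) * ((K.n b * K.g x b * K.g x' b)
        * (K.n c * K.g x c * K.g x' c))) := by
    intro a b c
    rw [sq, v, Finset.sum_mul_sum, Finset.mul_sum]
    apply Finset.sum_congr rfl
    intro x _
    rw [Finset.mul_sum]
    apply Finset.sum_congr rfl
    intro x' _
    ring
  have r : ∀ x x', K.m x * K.m x' * K.tr.u x x' ^ 3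
      = ∑ a, ∑ b, ∑ c, K.m x * K.m x' * ((K.n a * K.g x a * K.g x' a)
        * ((K.n b * K.g x b * K.g x' b) * (K.n c * K.g x c * K.g x' c))) := by
    intro x x'
    simp only [← Finset.mul_sum, ← Finset.sum_mul, u, tr]
    ring
  unfold C3
  have : ∑ x, ∑ x', K.tr.n x * K.tr.n x' * K.tr.u x x' ^ 3
      = ∑ x, ∑ x', K.m x * K.m x' * K.tr.u x x' ^ 3 := rfl
  rw [this]
  simp only [l, r]
  simp only [← Fintype.sum_prod_type']
  exact Fintype.sum_equiv
    { toFun := fun z => (z.2.2.2.1, z.2.2.2.2, z.1, z.2.1, z.2.2.1)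
      invFun := fun z => (z.2.2.1, z.2.2.2.1, z.2.2.2.2, z.1, z.2.1)
      left_inv := fun _ => rfl
      right_inv := fun _ => rfl } _ _ (fun _ => rfl)

lemma sum12 (f h : ℝ → ℝ) :
    ∑ a, ∑ b, ∑ c, K.n a * K.n b * K.n c * (K.v a b c * f (K.u a b) + h (K.u a b)) = K.Lp f h := by
  apply Finset.sum_congr rfl
  intro a _
  apply Finset.sum_congr rfl
  intro b _
  have : ∑ c, K.n a * K.n b * K.n c * (K.v a b c * f (K.u a b) + h (K.u a b))
      = K.n a * K.n b * ((∑ c, K.n c * K.v a b c) * f (K.u a b) + (∑ c, K.n c) * h (K.u a b)) := by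
    rw [Finset.sum_mul, Finset.sum_mul, ← Finset.sum_add_distrib, Finset.mul_sum]
    exact Finset.sum_congr rfl fun c _ => by ring
  rw [this, sum_v, K.ns, one_mul]

lemma sum13 (f h : ℝ → ℝ) :
    ∑ a, ∑ b, ∑ c, K.n a * K.n b * K.n c * (K.v a b c * f (K.u a c) + h (K.u a c)) = K.Lp f h := by
  rw [← K.sum12 f h]
  apply Finset.sum_congr rfl
  intro a _
  rw [Finset.sum_comm]
  apply Finset.sum_congr rfl
  intro b _
  apply Finset.sum_congr rfl
  intro c _
  rw [K.v_swap23 a c b]
  ring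

lemma sum23 (f h : ℝ → ℝ) :
    ∑ a, ∑ b, ∑ c, K.n a * K.n b * K.n c * (K.v a b c * f (K.u b c) + h (K.u b c)) = K.Lp f h := by
  rw [← K.sum13 f h, Finset.sum_comm]
  apply Finset.sum_congr rfl
  intro a _
  apply Finset.sum_congr rfl
  intro b _
  apply Finset.sum_congr rfl
  intro c _
  rw [K.v_swap12 b a c]
  ring

lemma u_nonneg (a b : Y) : 0 ≤ K.u a b :=
  Finset.sum_nonneg fun x _ => mul_nonneg (mul_nonneg (K.m0 _) (K.g0 _ _)) (K.g0 _ _)

lemma v_nonneg (a b c : Y) : 0 ≤ K.v a b c :=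
  Finset.sum_nonneg fun x _ =>
    mul_nonneg (mul_nonneg (mul_nonneg (K.m0 _) (K.g0 _ _)) (K.g0 _ _)) (K.g0 _ _)

lemma u_le (a b : Y) : K.u a b ≤ 5 / 2 := by
  have : K.u a b ≤ 5 / 2 * ∑ x, K.m x * K.g x a := by
    rw [u, Finset.mul_sum]
    apply Finset.sum_le_sum
    intro x _
    have := mul_nonneg (mul_nonneg (K.m0 x) (K.g0 x a)) (sub_nonneg.mpr (K.g1 x b))
    linarith
  have := K.col1 a
  linarith

lemma v_le (a b c : Y) : K.v a b c ≤ 5 / 2 * K.u a b := by
  rw [u, v, Finset.mul_sum]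
  apply Finset.sum_le_sum
  intro x _
  have := mul_nonneg (mul_nonneg (mul_nonneg (K.m0 x) (K.g0 x a)) (K.g0 x b))
    (sub_nonneg.mpr (K.g1 x c))
  linarith

lemma v_ge (a b c : Y) : 5 / 2 * (K.u a b + K.u a c) - 25 / 4 ≤ K.v a b c := by
  have : 5 / 2 * (K.u a b + K.u a c) - 25 / 4 * ∑ x, K.m x * K.g x a ≤ K.v a b c := by
    rw [u, u, v, ← Finset.sum_add_distrib, Finset.mul_sum, Finset.mul_sum, ← Finset.sum_sub_distrib]
    apply Finset.sum_le_sum
    intro x _
    have := mul_nonneg (mul_nonneg (mul_nonneg (K.m0 x) (K.g0 x a)) (sub_nonneg.mpr (K.g1 x b)))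
      (sub_nonneg.mpr (K.g1 x c))
    linarith
  have := K.col1 a
  linarith

lemma D3_le : K.D3 ≤ 21 / 20 * K.tr.C3 + 3 * K.Lp lam psi := by
  have p : ∀ a b c : Y, K.v a b c * Real.log (K.v a b c)
      ≤ 21 / 20 * K.v a b c ^ 2 + ((K.v a b c * lam (K.u a b) + psi (K.u a b))
        + (K.v a b c * lam (K.u a c) + psi (K.u a c))
        + (K.v a b c * lam (K.u b c) + psi (K.u b c))) := by
    intro a b c
    have t1 := K.v_le a b c
    have t2 := K.v_le a c b
    have t3 := K.v_le b c a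
    have s1 := K.v_ge a b c
    have s2 := K.v_ge b a c
    have s3 := K.v_ge c a b
    rw [← v_swap23] at t2
    rw [K.v_swap23 b, ← v_swap12] at t3
    rw [← v_swap12, K.u_swap b a] at s2
    rw [K.v_swap12 c, ← v_swap23, K.u_swap c a, K.u_swap c b] at s3
    have := pointwise (K.v_nonneg a b c) t1 t2 t3 s1 s2 s3
    simp only [q] at this
    simp only [lam, psi]
    linarith
  have e1 := K.sum12 lam psi
  have e2 := K.sum13 lam psi
  have e3 := K.sum23 lam psi
  have e : 3 * K.Lp lam psi = K.Lp lam psi + K.Lp lam psi + K.Lp lam psi := by ring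
  rw [e]
  nth_rewrite 3 [← e3]
  nth_rewrite 2 [← e2]
  nth_rewrite 1 [← e1]
  rw [← K.sum_v_sq, D3]
  simp only [Finset.mul_sum, ← Finset.sum_add_distrib]
  refine Finset.sum_le_sum fun a _ => Finset.sum_le_sum fun b _ => Finset.sum_le_sum fun c _ => ?_
  have := mul_le_mul_of_nonneg_left (p a b c) (mul_nonneg (mul_nonneg (K.n0 a) (K.n0 b)) (K.n0 c))
  linarith

lemma budget_le : 21 / 20 * K.C3 + 3 * K.Lp lam psi ≤ 8 * K.D2 := by
  have s : ∑ a, ∑ b, K.n a * K.n b = 1 := by
    simp only [← Finset.mul_sum, K.ns, mul_one]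
  have e : 8 * K.D2 = 8 * K.D2 - 119 / 20 * (∑ a, ∑ b, K.n a * K.n b * K.u a b)
      + 119 / 20 * ∑ a, ∑ b, K.n a * K.n b := by
    rw [K.sum_u, s]
    ring
  rw [e, C3, Lp, D2]
  simp only [Finset.mul_sum, ← Finset.sum_add_distrib, ← Finset.sum_sub_distrib]
  refine Finset.sum_le_sum fun a _ => Finset.sum_le_sum fun b _ => ?_
  have := mul_le_mul_of_nonneg_left (budget (K.u_nonneg a b) (K.u_le a b))
    (mul_nonneg (K.n0 a) (K.n0 b))
  simp only [lam, psi]
  linarith

lemma half {R : X → Y → Prop} (hE : ∀ e, K.fd.p e ≠ 0 → R e.1 e.2)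
    (T : Finset ((Fin 5 → X) × (Fin 5 → Y))) (hT : ∀ p, IsHom R p → p ∈ T) :
    15 * he K.fd - 10 * Real.log (Fintype.card X) - 10 * Real.log (Fintype.card Y)
      + 6 * K.D2 + 2 * K.tr.D2 - K.D3 ≤ Real.log T.card := by
  have a := bound_refl hE T hT
  have x1 : hx K.fd ≤ Real.log (Fintype.card X) := K.fd.H_le_log _
  have y1 : hy K.fd ≤ Real.log (Fintype.card Y) := K.fd.H_le_log _
  rw [h2_eq, h2x_eq, h3_eq] at a
  linarith

lemma he_tr : he K.tr.fd = he K.fd := by
  unfold he H
  simp only [law_id]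
  rw [Fintype.sum_prod_type, Fintype.sum_prod_type, Finset.sum_comm]
  congr 1
  apply Finset.sum_congr rfl
  intro x _
  apply Finset.sum_congr rfl
  intro y _
  have : K.tr.fd.p (y, x) = K.fd.p (x, y) := by
    simp only [fd_p, tr]
    ring
  rw [this]

theorem main {R : X → Y → Prop} (hE : ∀ e, K.fd.p e ≠ 0 → R e.1 e.2)
    (T : Finset ((Fin 5 → X) × (Fin 5 → Y))) (hT : ∀ p, IsHom R p → p ∈ T) :
    15 * he K.fd - 10 * Real.log (Fintype.card X) - 10 * Real.log (Fintype.card Y)
      ≤ Real.log T.card := by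
  classical
  have a := K.half hE T hT
  let F : (Fin 5 → X) × (Fin 5 → Y) → (Fin 5 → Y) × (Fin 5 → X) :=
    fun p => (fun i => p.2 (-i), fun j => p.1 (-j))
  have b := K.tr.half (R := fun y x => R x y) (fun e he => hE (e.2, e.1) (by
      intro h
      apply he
      have : K.tr.fd.p (e.1, e.2) = K.fd.p (e.2, e.1) := by
        simp only [fd_p, tr]
        ring
      exact this.trans h)) (T.image F) (by
      intro p hp
      refine Finset.mem_image.mpr ⟨(fun i => p.2 (-i), fun j => p.1 (-j)), hT _ ?_, ?_⟩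
      · intro i j h
        refine hp (-j) (-i) ?_
        revert i j
        decide
      · simp [F])
  have c : Real.log ((T.image F).card) ≤ Real.log T.card := by
    rcases Nat.eq_zero_or_pos (T.image F).card with h | h
    · rw [h]
      simp only [Nat.cast_zero, Real.log_zero]
      exact Real.log_natCast_nonneg _
    · exact Real.log_le_log (by exact_mod_cast h) (by exact_mod_cast Finset.card_image_le)
  rw [he_tr] at b
  have d1 := K.D3_le
  have d2 := K.tr.D3_le
  have f1 := K.budget_le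
  have f2 := K.tr.budget_le
  have r1 : K.tr.tr.C3 = K.C3 := rfl
  have r2 : K.tr.tr.D2 = K.D2 := rfl
  rw [r1] at d2
  rw [r2] at b
  linarith

end Ker

section graph

variable {X Y : Type} [Fintype X] [Fintype Y]

/-- The kernel of a bipartite graph with degree functions `a` and `b`. -/
noncomputable def gker (E : Finset (X × Y)) (hE : E.Nonempty) (a : X → ℝ) (b : Y → ℝ)
    (ha : ∀ x, ∑ y, ind ((x, y) ∈ E) = a x) (hb : ∀ y, ∑ x, ind ((x, y) ∈ E) = b y)
    (hs : ∑ x, a x = E.card) (ht : ∑ y, b y = E.card)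
    (hd : ∀ x y, (x, y) ∈ E → 2 * (E.card : ℝ) ≤ 5 * (a x * b y)) : Ker X Y :=
  have hc : (0 : ℝ) < E.card := by exact_mod_cast hE.card_pos
  have a0 : ∀ x, 0 ≤ a x := fun x => ha x ▸ Finset.sum_nonneg fun y _ => ind_nonneg _
  have b0 : ∀ y, 0 ≤ b y := fun y => hb y ▸ Finset.sum_nonneg fun x _ => ind_nonneg _
  have pos : ∀ x y, (x, y) ∈ E → a x ≠ 0 ∧ b y ≠ 0 := by
    intro x y h
    have := hd x y h
    have : a x * b y ≠ 0 := by
      intro e
      rw [e] at this
      linarith
    exact ⟨left_ne_zero_of_mul this, right_ne_zero_of_mul this⟩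
  have r : ∀ x, ∑ y, b y / E.card * (ind ((x, y) ∈ E) * E.card / (a x * b y)) = a x / a x := by
    intro x
    nth_rewrite 2 [← ha x]
    rw [Finset.sum_div]
    apply Finset.sum_congr rfl
    intro y _
    by_cases h : (x, y) ∈ E
    · obtain ⟨p1, p2⟩ := pos x y h
      field_simp
    · simp [ind_neg h]
  have c : ∀ y, ∑ x, a x / E.card * (ind ((x, y) ∈ E) * E.card / (a x * b y)) = b y / b y := by
    intro y
    nth_rewrite 2 [← hb y]
    rw [Finset.sum_div]
    apply Finset.sum_congr rfl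
    intro x _
    by_cases h : (x, y) ∈ E
    · obtain ⟨p1, p2⟩ := pos x y h
      field_simp
    · simp [ind_neg h]
  { m := fun x => a x / E.card
    n := fun y => b y / E.card
    g := fun x y => ind ((x, y) ∈ E) * E.card / (a x * b y)
    m0 := fun x => div_nonneg (a0 x) hc.le
    n0 := fun y => div_nonneg (b0 y) hc.le
    g0 := fun x y => div_nonneg (mul_nonneg (ind_nonneg _) hc.le) (mul_nonneg (a0 x) (b0 y))
    g1 := fun x y => by
      by_cases h : (x, y) ∈ E
      · have := hd x y h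
        rw [ind_pos h, one_mul, div_le_div_iff₀ (by linarith) (by norm_num)]
        linarith
      · rw [ind_neg h]
        norm_num
    ms := by rw [← Finset.sum_div, hs, div_self hc.ne']
    ns := by rw [← Finset.sum_div, ht, div_self hc.ne']
    row := fun x => by
      rw [r]
      by_cases h : a x = 0
      · simp [h]
      · rw [div_self h, mul_one]
    col := fun y => by
      rw [c]
      by_cases h : b y = 0
      · simp [h]
      · rw [div_self h, mul_one]
    row1 := fun x => by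
      rw [r]
      exact div_self_le_one _
    col1 := fun y => by
      rw [c]
      exact div_self_le_one _ }

theorem graph_log (E : Finset (X × Y)) (hE : E.Nonempty) (a : X → ℝ) (b : Y → ℝ)
    (ha : ∀ x, ∑ y, ind ((x, y) ∈ E) = a x) (hb : ∀ y, ∑ x, ind ((x, y) ∈ E) = b y)
    (hd : ∀ x y, (x, y) ∈ E → 2 * (E.card : ℝ) ≤ 5 * (a x * b y))
    (T : Finset ((Fin 5 → X) × (Fin 5 → Y)))
    (hT : ∀ p, IsHom (fun x y => (x, y) ∈ E) p → p ∈ T) :
    15 * Real.log E.card - 10 * Real.log (Fintype.card X) - 10 * Real.log (Fintype.card Y)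
      ≤ Real.log T.card := by
  have hc : (0 : ℝ) < E.card := by exact_mod_cast hE.card_pos
  have tot : ∑ e : X × Y, ind (e ∈ E) = E.card := by
    have := (unif E hE).sum_eq
    simp only [unif] at this
    rwa [← Finset.sum_div, div_eq_one_iff_eq hc.ne'] at this
  have hs : ∑ x, a x = E.card := by
    rw [← tot, Fintype.sum_prod_type]
    simp only [ha]
  have ht : ∑ y, b y = E.card := by
    rw [← tot, Fintype.sum_prod_type, Finset.sum_comm]
    simp only [hb]
  have e : (gker E hE a b ha hb hs ht hd).fd = unif E hE := by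
    have : (gker E hE a b ha hb hs ht hd).fd.p = (unif E hE).p := by
      funext ⟨x, y⟩
      simp only [Ker.fd_p, gker, unif]
      by_cases h : (x, y) ∈ E
      · have := hd x y h
        have q : a x * b y ≠ 0 := by
          intro e
          rw [e] at this
          linarith
        have q1 := left_ne_zero_of_mul q
        have q2 := right_ne_zero_of_mul q
        field_simp
      · simp [ind_neg h]
    generalize (gker E hE a b ha hb hs ht hd).fd = P at this
    generalize unif E hE = Q at this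
    cases P
    cases Q
    simp only at this
    subst this
    rfl
  have := (gker E hE a b ha hb hs ht hd).main (R := fun x y => (x, y) ∈ E)
    (fun w hw => by
      rw [e] at hw
      exact unif_supp E hE hw) T hT
  rwa [e, he_unif] at this

end graph

end Pool.Agent.MP_344f7e_co.H51
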